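import Mathlib
import Pool.Agent.H23.FF.Main

/-!
# Hardy and Littlewood's asymptotic formula over `F_q[T]`, `q` fixed, for almost all tuples of very short shifts

Over every finite field `F` with `q` elements the prime tuples asymptotic formula, with the full singular series
and with a relative error `n ^ (-A)`, holds for the monic polynomials of degree `n` and for almost all shifts
`c + a`, where the centres `c i` are arbitrary polynomials of degree `< n` and the `a i` run through the
polynomials of degree `< h`, as soon as `q ^ h ≥ n ^ C`. (`n` is `log_q` of the size of the polynomials `f`, so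
this is the analogue of shifts in intervals of length `(log x) ^ C`.)

The proof: the circle method on average over short intervals with Weil's bound for all Hayes characters
(`Pool.Agent.Q284.WE` of the starting library), comparison with a sieve model of the primes whose correlations are
computed by Brun's pure sieve, and a Cauchy-Schwarz argument in the shifts (folder `Pool/Agent/H23/FF`).
-/

set_option autoImplicit false

namespace Pool.Agent.Results.MP_e87c7d_nt.FunctionFieldsShortShifts

open Polynomial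

variable {F : Type} [Field F] [Fintype F] {r : ℕ}

/-- the number of monic polynomials `f` of degree `n` for which all `f + b i` are irreducible -/
noncomputable def count (n : ℕ) (b : Fin r → F[X]) : ℕ :=
  {f : F[X] | f.Monic ∧ f.natDegree = n ∧ ∀ i, Irreducible (f + b i)}.ncard

/-- the number of residue classes modulo `P` occupied by the `b i` -/
noncomputable def nu (b : Fin r → F[X]) (P : F[X]) : ℕ := (Set.range fun i => b i %ₘ P).ncard

/-- the local factor of the singular series at `P` -/
noncomputable def factor (b : Fin r → F[X]) (P : F[X]) : ℝ :=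
  (1 - nu b P / (Fintype.card F : ℝ) ^ P.natDegree) / (1 - 1 / (Fintype.card F : ℝ) ^ P.natDegree) ^ r

/-- the singular series, a product over all monic irreducible polynomials -/
noncomputable def singular (b : Fin r → F[X]) : ℝ :=
  ∏' P : {P : F[X] // P.Monic ∧ Irreducible P}, factor b (P : F[X])

omit [Fintype F] in
open Pool.Agent.H23.FF in
theorem nu_eq' (b : Fin r → F[X]) (P : F[X]) : nu b P = Pool.Agent.H23.FF.nu b P := by
  classical
  unfold nu Pool.Agent.H23.FF.nu res
  rw [← Set.ncard_coe_finset]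
  congr 1
  ext x
  simp

open Pool.Agent.H23.FF in
theorem factor_eq (b : Fin r → F[X]) (P : F[X]) : factor b P = fac b P := by
  unfold factor fac nrm q
  rw [nu_eq', inv_pow, div_eq_mul_inv _ (_ ^ r)]

open Pool.Agent.H23.FF in
theorem singular_eq (b : Fin r → F[X]) : singular b = SS b := by
  unfold singular SS
  congr 1
  funext P
  exact factor_eq b P

open Pool.Agent.H23.FF in
open Pool.Agent.H341R2.Sharp (Mon mem_Mon) in
theorem TT_eq (n : ℕ) (b : Fin r → F[X]) : TT n (fun _ => th n) b = (n : ℝ) ^ r * count n b := by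
  classical
  have h1 : {f : F[X] | f.Monic ∧ f.natDegree = n ∧ ∀ i, Irreducible (f + b i)} =
      (((Mon F n).filter (fun f => ∀ i, Irreducible (f + b i)) : Finset F[X]) : Set F[X]) := by
    ext f
    simp only [Set.mem_ofPred_eq, Finset.coe_filter, mem_Mon, and_assoc]
  unfold count TT
  rw [h1, Set.ncard_coe_finset, Finset.card_eq_sum_ones, Nat.cast_sum, Finset.mul_sum,
    Finset.sum_filter]
  apply Finset.sum_congr rfl
  intro f _
  unfold th
  by_cases h : ∀ i, Irreducible (f + b i)
  · rw [if_pos h, Finset.prod_congr rfl fun i _ => if_pos (h i), Finset.prod_const, Finset.card_univ,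
      Fintype.card_fin]
    simp
  · rw [if_neg h]
    push Not at h
    obtain ⟨i, hi⟩ := h
    exact Finset.prod_eq_zero (Finset.mem_univ i) (if_neg hi)

open Pool.Agent.H23.FF in
/-- inadmissible tuples -/
theorem inadm {n : ℕ} (hn : r < Fintype.card F ^ n) (b : Fin r → F[X]) {P : F[X]} (hP : P.Monic)
    (hirr : Irreducible P) (h : nrm P ≤ (Pool.Agent.H23.FF.nu b P : ℝ)) (hb : ∀ i, b i ∈ Lo F n) :
    SS b = 0 ∧ count n b = 0 := by
  classical
  constructor
  · apply tprod_of_exists_eq_zero
    refine ⟨⟨P, hP, hirr⟩, ?_⟩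
    unfold fac
    have h1 := nu_le_nrm b hP
    have h2 := nrm_pos P
    have h3 : (Pool.Agent.H23.FF.nu b P : ℝ) / nrm P = 1 := by
      rw [div_eq_one_iff_eq h2.ne']
      exact le_antisymm h1 h
    change (1 - (Pool.Agent.H23.FF.nu b P : ℝ) / nrm P) * _ = 0
    rw [h3, sub_self, zero_mul]
  · unfold count
    rw [Set.ncard_eq_zero (by
      apply Set.Finite.subset (Pool.Agent.H341R2.Sharp.Mon F n).finite_toSet
      intro f hf
      rw [Finset.mem_coe, Pool.Agent.H341R2.Sharp.mem_Mon]
      exact ⟨hf.1, hf.2.1⟩), Set.eq_empty_iff_forall_notMem]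
    rintro f ⟨hf1, hf2, hf3⟩
    -- all residues are occupied
    have h1 : res b P = Lo F P.natDegree := by
      apply Finset.eq_of_subset_of_card_le
      · intro ρ hρ
        unfold res at hρ
        rw [Finset.mem_image] at hρ
        obtain ⟨i, _, rfl⟩ := hρ
        exact mod_mem_Lo hP rfl _
      · rw [card_Lo]
        unfold nrm q at h
        exact_mod_cast h
    have h2 : (-f) %ₘ P ∈ res b P := by
      rw [h1]
      exact mod_mem_Lo hP rfl _
    unfold res at h2
    rw [Finset.mem_image] at h2
    obtain ⟨i, _, hi⟩ := h2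
    have h3 : P ∣ f + b i := by
      rw [← modByMonic_eq_zero_iff_dvd hP, add_modByMonic, hi, neg_modByMonic, add_neg_cancel]
    have h4 : Associated P (f + b i) := hirr.associated_of_dvd (hf3 i) h3
    have h5 : (f + b i) ∈ Pool.Agent.H341R2.Sharp.Mon F n :=
      add_mem_Mon (Pool.Agent.H341R2.Sharp.mem_Mon.2 ⟨hf1, hf2⟩) (hb i)
    rw [Pool.Agent.H341R2.Sharp.mem_Mon] at h5
    have h6 : P = f + b i := eq_of_monic_of_associated hP h5.1 h4
    have h7 := nu_le b P
    rw [Fintype.card_fin] at h7
    have h8 : Fintype.card F ^ P.natDegree ≤ Pool.Agent.H23.FF.nu b P := by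
      unfold nrm q at h
      exact_mod_cast h
    rw [h6, h5.2] at h8
    rw [← h6] at h8
    omega

/-- **Hardy and Littlewood's asymptotic formula over `F_q[T]` for almost all tuples of short shifts.** -/
theorem result (r A : ℕ) :
    (∀ (F : Type) [Field F] [Fintype F] (b : Fin r → F[X]), Function.Injective b →
      Multipliable (fun P : {P : F[X] // P.Monic ∧ Irreducible P} => factor b (P : F[X])) ∧
      ((∀ P : F[X], P.Monic → Irreducible P → nu b P < Fintype.card F ^ P.natDegree) →
        Real.exp (-(8 * r ^ 3)) ≤ singular b)) ∧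
    ∃ C n₀ : ℕ, ∀ (F : Type) [Field F] [Fintype F] (n h : ℕ), n₀ ≤ n → 2 ≤ h → h ≤ n →
      n ^ C ≤ Fintype.card F ^ h → ∀ c : Fin r → F[X], (∀ i, (c i).degree < n) →
        ({a : Fin r → F[X] | (∀ i, (a i).degree < h) ∧ Function.Injective (c + a) ∧
          singular (c + a) * (Fintype.card F : ℝ) ^ n / (n : ℝ) ^ r / (n : ℝ) ^ A <
            |(count n (c + a) : ℝ) - singular (c + a) * (Fintype.card F : ℝ) ^ n / (n : ℝ) ^ r|}.ncard : ℝ) ≤
          ((Fintype.card F : ℝ) ^ h) ^ r / (n : ℝ) ^ A := by
  classical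
  refine ⟨?_, ?_⟩
  · intro F _ _ b hb
    refine ⟨?_, ?_⟩
    · refine (Pool.Agent.H23.FF.mult_fac hb).congr ?_
      intro P
      exact (factor_eq b P).symm
    · intro hadm
      rw [singular_eq]
      apply Pool.Agent.H23.FF.SS_lower hb
      intro P hP hirr
      have := hadm P hP hirr
      rw [nu_eq'] at this
      unfold Pool.Agent.H23.FF.nrm Pool.Agent.H23.FF.q
      exact_mod_cast this
  · obtain ⟨C, n₀, hmain⟩ := Pool.Agent.H23.FF.main_T r (A + 1)
    obtain ⟨n₁, hn₁⟩ := exists_nat_ge (Real.exp (8 * r ^ 3))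
    refine ⟨C, max n₀ (max n₁ (r + 1)), ?_⟩
    intro F _ _ n h hn hh hhn hC c hc
    have hn0 : n₀ ≤ n := (le_max_left _ _).trans hn
    have hnn1 : n₁ ≤ n := (le_max_left _ _).trans ((le_max_right _ _).trans hn)
    have hnr : r + 1 ≤ n := (le_max_right _ _).trans ((le_max_right _ _).trans hn)
    have hc' : ∀ i, c i ∈ Pool.Agent.H23.FF.Lo F n := fun i => Pool.Agent.H23.FF.mem_Lo.2 (hc i)
    have h1 := hmain F n h hn0 hh hhn hC c hc'
    have hN1 : (1 : ℝ) ≤ n := by exact_mod_cast (by omega : 1 ≤ n)
    have hq := Pool.Agent.H23.FF.q_pos F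
    have hqd : (Fintype.card F : ℝ) = Pool.Agent.H23.FF.q F := rfl
    rw [hqd]
    set S := (Pool.Agent.H23.FF.Box F r h).filter (fun a => Function.Injective (c + a) ∧
      Pool.Agent.H23.FF.q F ^ n / (n : ℝ) ^ (A + 1) <
        |Pool.Agent.H23.FF.TT n (fun _ => Pool.Agent.H23.FF.th n) (c + a) -
          Pool.Agent.H23.FF.q F ^ n * Pool.Agent.H23.FF.SS (c + a)|) with hS
    have hsub : {a : Fin r → F[X] | (∀ i, (a i).degree < h) ∧ Function.Injective (c + a) ∧
          singular (c + a) * Pool.Agent.H23.FF.q F ^ n / (n : ℝ) ^ r / (n : ℝ) ^ A <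
            |(count n (c + a) : ℝ) -
              singular (c + a) * Pool.Agent.H23.FF.q F ^ n / (n : ℝ) ^ r|} ⊆ (S : Set (Fin r → F[X])) := by
      rintro a ⟨ha1, ha2, ha3⟩
      have haB : a ∈ Pool.Agent.H23.FF.Box F r h := by
        unfold Pool.Agent.H23.FF.Box
        rw [Fintype.mem_piFinset]
        exact fun i => Pool.Agent.H23.FF.mem_Lo.2 (ha1 i)
      have hcaLo : ∀ i, (c + a) i ∈ Pool.Agent.H23.FF.Lo F n := fun i =>
        Pool.Agent.H23.FF.add_mem_Lo (hc' i)
          (Pool.Agent.H23.FF.Lo_mono hhn (Pool.Agent.H23.FF.mem_Lo.2 (ha1 i)))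
      rw [Finset.mem_coe, hS, Finset.mem_filter]
      refine ⟨haB, ha2, ?_⟩
      rw [singular_eq] at ha3
      by_cases hadm : ∀ P : F[X], P.Monic → Irreducible P →
          (Pool.Agent.H23.FF.nu (c + a) P : ℝ) < Pool.Agent.H23.FF.nrm P
      · have h2 := Pool.Agent.H23.FF.SS_lower ha2 hadm
        rw [TT_eq]
        set s := Pool.Agent.H23.FF.SS (c + a) with hs
        set Q := Pool.Agent.H23.FF.q F ^ n with hQ
        have hQ0 : 0 < Q := by positivity
        have hnr0 : (0 : ℝ) < (n : ℝ) ^ r := by positivity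
        have hnA0 : (0 : ℝ) < (n : ℝ) ^ A := by positivity
        have h3 : (n : ℝ) ^ r * count n (c + a) - Q * s =
            (n : ℝ) ^ r * ((count n (c + a) : ℝ) - s * Q / (n : ℝ) ^ r) := by
          field_simp
        rw [h3, abs_mul, abs_of_pos hnr0]
        have h4 : (n : ℝ) ^ r * (s * Q / (n : ℝ) ^ r / (n : ℝ) ^ A) <
            (n : ℝ) ^ r * |(count n (c + a) : ℝ) - s * Q / (n : ℝ) ^ r| :=
          mul_lt_mul_of_pos_left ha3 hnr0
        refine lt_of_le_of_lt ?_ h4
        have h5 : (n : ℝ) ^ r * (s * Q / (n : ℝ) ^ r / (n : ℝ) ^ A) = s * Q / (n : ℝ) ^ A := by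
          field_simp
        rw [h5, pow_succ, div_le_div_iff₀ (by positivity) hnA0]
        have h6 : 1 ≤ s * n := by
          have h7 : Real.exp (8 * r ^ 3) ≤ n := hn₁.trans (by exact_mod_cast hnn1)
          calc (1 : ℝ) = Real.exp (-(8 * r ^ 3)) * Real.exp (8 * r ^ 3) := by
                rw [← Real.exp_add, neg_add_cancel, Real.exp_zero]
            _ ≤ s * n := mul_le_mul h2 h7 (Real.exp_pos _).le ((Real.exp_pos _).le.trans h2)
        calc Q * (n : ℝ) ^ A = Q * (n : ℝ) ^ A * 1 := (mul_one _).symm
          _ ≤ Q * (n : ℝ) ^ A * (s * n) := mul_le_mul_of_nonneg_left h6 (by positivity)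
          _ = s * Q * ((n : ℝ) ^ A * n) := by ring
      · exfalso
        push Not at hadm
        obtain ⟨P, hP, hirr, hnu⟩ := hadm
        have hrn : r < Fintype.card F ^ n := by
          have h2 : n < 2 ^ n := Nat.lt_two_pow_self
          have h3 : 2 ^ n ≤ Fintype.card F ^ n := Nat.pow_le_pow_left Fintype.one_lt_card n
          omega
        obtain ⟨h2, h3⟩ := inadm hrn (c + a) hP hirr hnu hcaLo
        rw [h2, h3] at ha3
        simp at ha3
    have h2 : ({a : Fin r → F[X] | (∀ i, (a i).degree < h) ∧ Function.Injective (c + a) ∧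
          singular (c + a) * Pool.Agent.H23.FF.q F ^ n / (n : ℝ) ^ r / (n : ℝ) ^ A <
            |(count n (c + a) : ℝ) -
              singular (c + a) * Pool.Agent.H23.FF.q F ^ n / (n : ℝ) ^ r|}.ncard : ℝ) ≤ S.card := by
      have h3 := Set.ncard_le_ncard hsub (Finset.finite_toSet S)
      rw [Set.ncard_coe_finset] at h3
      exact_mod_cast h3
    refine h2.trans (h1.trans ?_)
    apply div_le_div_of_nonneg_left (by positivity) (by positivity)
    exact pow_le_pow_right₀ hN1 (by omega)

end Pool.Agent.Results.MP_e87c7d_nt.FunctionFieldsShortShifts
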