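import Pool.Agent.H15.JD.Fin

/-! The windows `(a_j (x + u_j), a_j (x + u_j + ℓ_j)]`, `j ≤ r`, at almost all `r`-tuples of dilations `a_j` of polylogarithmic
size contain jointly the expected number of primes, on average over an arbitrary well spaced set of points `x` with
arbitrary weights, for example over the primes `x`. -/

set_option autoImplicit false

namespace Pool.Agent.Results.MP_e87c7d_nt.IndependentDilations
open Finset Pool.Agent.H15.JD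

/-- For all `B` and `r ≥ 1` there are `C` and `N₀` with the following property. Let `N ≥ N₀`, let
`(log N)^C ≤ P_j ≤ N^B`, let `A_j` be any set of at least `P_j / (log N)^B` primes in `(P_j / 2, P_j]`, let
`1 / (P_j (log N)^B) ≤ η ≤ 1`, let `S` be any finite `η`-separated set of reals in `[N, 2 N]` and `w` any real weight with
`|w| ≤ 1` on `S`, let `0 ≤ u_j ≤ N` and `η ≤ ℓ_j ≤ N / (log N)^C`. Then all but a proportion `1 / (log N)^B` of the tuples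
`(a_1, ..., a_r)` in `A_1 × ... × A_r` satisfy
`∑_{x ∈ S} w(x) ∏_j ∑_{a_j (x + u_j) < p ≤ a_j (x + u_j + ℓ_j)} log p =
(∏_j a_j ℓ_j) (∑_{x ∈ S} w(x) + θ N / (η (log N)^B))` with `|θ| ≤ 1`. -/
theorem result (B r : ℕ) (hr : 1 ≤ r) : ∃ (C : ℕ) (N₀ : ℝ),
    ∀ (N η : ℝ) (P : Fin r → ℝ) (A : Fin r → Finset ℕ) (S : Finset ℝ) (w : ℝ → ℝ) (u ℓ : Fin r → ℝ),
    N₀ ≤ N → (∀ j, Real.log N ^ C ≤ P j) → (∀ j, P j ≤ N ^ B) →
    (∀ j, ∀ a ∈ A j, a.Prime ∧ P j / 2 < a ∧ (a : ℝ) ≤ P j) → (∀ j, P j / Real.log N ^ B ≤ (A j).card) →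
    (∀ j, 1 / (P j * Real.log N ^ B) ≤ η) → η ≤ 1 →
    (∀ x ∈ S, N ≤ x ∧ x ≤ 2 * N) → (∀ x ∈ S, ∀ x' ∈ S, x ≠ x' → η ≤ |x - x'|) → (∀ x ∈ S, |w x| ≤ 1) →
    (∀ j, 0 ≤ u j ∧ u j ≤ N) → (∀ j, η ≤ ℓ j ∧ ℓ j ≤ N / Real.log N ^ C) →
    ∃ E : Finset (Fin r → ℕ), E ⊆ Fintype.piFinset A ∧ (E.card : ℝ) ≤ (∏ j, ((A j).card : ℝ)) / Real.log N ^ B ∧
      ∀ a ∈ Fintype.piFinset A, a ∉ E →
        |∑ x ∈ S, w x * ∏ j, (∑ p ∈ (Finset.Ioc ⌊(a j : ℝ) * (x + u j)⌋₊ ⌊(a j : ℝ) * (x + u j + ℓ j)⌋₊).filter Nat.Prime,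
            Real.log p) - (∏ j, ((a j : ℝ) * ℓ j)) * ∑ x ∈ S, w x| ≤
          (∏ j, ((a j : ℝ) * ℓ j)) * (N / η / Real.log N ^ B) :=
  joint B r hr

end Pool.Agent.Results.MP_e87c7d_nt.IndependentDilations
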