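import Mathlib
import Pool.Agent.H72.CG.RealX
import Pool.Graph.R_seed8.H661R3.OP.PAP

/-!
# Almost prime `r`-tuples in all short intervals, uniformly in the shifts: arbitrary labels of primes

Give EVERY prime a label in a finite abelian group `G`, in an arbitrary way, and let the label of a
positive integer be the sum of the labels of its prime factors (with multiplicity). Let `N = |G|`, or
let `G` have exponent `2` and `|G| ≤ 2 ^ (N - 1)`, and let `θ > 1 - 1 / N`. We show, uniformly in all the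
`r`-tuples `a_1, ..., a_r` without a local obstruction, with differences up to any power of `x`: EVERY
element of `G` is the label of the member `n + a_j` in `(x, x + x ^ θ]` for at least
`x ^ (1 - N (1 - θ) - ε)` integers `n` such that all the `n + a_i` are products of at most `R` primes, all
larger than `x ^ δ`. The only condition is that for no proper subgroup `H` of `G` the label modulo `H` of
the products `≤ x ^ (k δ)` of primes `> x ^ δ` is a function of their class modulo a certain bounded `q`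
(as it is for the characters modulo `q`, for which there may be a true obstruction); this is the case if
the labels of the primes `p ≡ 1` modulo `q`, `x ^ δ < p ≤ x ^ (2 δ)`, generate `G` (`result_primes`).

So no labelling of the primes (a generalised parity obstruction) which is not of this kind excludes, in
any short interval, the label which a prime member would have; for `G = ZMod M` and the label `1` of all
primes, `Ω(n + a_j)` lies in any given class modulo `M` (`result_Omega`); for `G` with two elements: every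
completely multiplicative function with values `1`, `-1`, which differs from all the characters modulo `q`
on the products `≤ x ^ (k δ)` of primes `> x ^ δ`, takes both values at `n + a_j`, if `θ > 1 / 2`.

Method (`Pool/Agent/H72/CG`): for rough numbers `V` which are close to one another, a sieve gives many `w`
such that ALL the `V w` are members `n + a_j` of such tuples of the interval, and the labels of the `V w`
are all the elements of `G` if the labels of the `V` are. Such families of `V` are products of pairs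
`{U, U'}` of neighbouring rough numbers: for each proper subgroup `H` of `G` some pair has labels which
differ modulo `H`, since otherwise the label modulo `H` would be the same for all the rough numbers from
`u' t` to `u t`, where the labels of `u`, `u'` differ modulo `H`; and if `T ≠ G` is the set of the labels
of a family, `H` its stabiliser and the labels `s, s'` of a pair differ modulo `H`, then `T + {s, s'}` is
larger than `T` (and twice as large as `T` if `G` has exponent `2`).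

From the library: the Brun-Hooley sieve, the idea of the chain of neighbouring rough numbers
(`Pool.Agent.W5h75.SP`, for the group with two elements), and a prime `≡ 1` modulo `q` in `(Y, Y ^ 2]`.
-/

set_option autoImplicit false

open Finset

namespace Pool.Agent.Results.MP_e87c7d_nt.LabelledTuples

open Pool.Agent.H72.CG

/-- `z > 1` is a product of at most `R` primes, all larger than `y`. -/
def AlmostPrime (R : ℕ) (y : ℝ) (z : ℤ) : Prop :=
  1 < z ∧ z.natAbs.primeFactorsList.length ≤ R ∧ ∀ l : ℕ, l.Prime → (l : ℤ) ∣ z → y < l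

/-- The `n` with `n + a_j` in `(x, x + x ^ θ]` such that all the `n + a_i` are products of at most `R`
primes, all larger than `x ^ δ`. -/
def AlmostPrimeTuples {r : ℕ} (a : Fin r → ℤ) (j : Fin r) (θ δ : ℝ) (R : ℕ) (x : ℝ) : Set ℤ :=
  {n : ℤ | x < ((n + a j : ℤ) : ℝ) ∧ ((n + a j : ℤ) : ℝ) ≤ x + x ^ θ ∧
    ∀ i, AlmostPrime R (x ^ δ) (n + a i)}

theorem pow_length_le (y : ℝ) (hy : 0 ≤ y) : ∀ l : List ℕ, (∀ p ∈ l, y ≤ (p : ℝ)) →
    y ^ l.length ≤ ((l.prod : ℕ) : ℝ) := by
  intro l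
  induction l with
  | nil => intro _; simp
  | cons p l ih =>
    intro h
    rw [List.length_cons, List.prod_cons, pow_succ, mul_comm, Nat.cast_mul]
    exact mul_le_mul (h p (by simp)) (ih fun q hq => h q (by simp [hq])) (by positivity)
      (by positivity)

/-- the label of `n`: the sum of the labels of the prime factors of `n` (with multiplicity) -/
def label {G : Type} [AddCommGroup G] (Φ : ℕ → G) (n : ℕ) : G := (n.primeFactorsList.map Φ).sum

/-- Modulo the subgroup `H`, the label of the integers `1 ≤ u ≤ y ^ k`, all whose prime factors are larger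
than `y`, is NOT a function of the class of `u` modulo `q`. -/
def NotPeriodic {G : Type} [AddCommGroup G] (Φ : ℕ → G) (q k : ℕ) (y : ℝ) (H : AddSubgroup G) : Prop :=
  ∃ u v : ℕ, 0 < u ∧ 0 < v ∧ (u : ℝ) ≤ y ^ k ∧ (v : ℝ) ≤ y ^ k ∧
    (∀ l : ℕ, l.Prime → l ∣ u * v → y < l) ∧ u ≡ v [MOD q] ∧ label Φ u - label Φ v ∉ H

/-- the label of an integer -/
def lab {G : Type} [AddCommGroup G] (Φ : ℕ → G) (z : ℤ) : G := (z.natAbs.primeFactorsList.map Φ).sum

theorem addG_lab {G : Type} [AddCommGroup G] (Φ : ℕ → G) : AddG (lab Φ) := by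
  intro x y hx hy
  unfold lab
  rw [Int.natAbs_mul, ← List.sum_append, ← List.map_append]
  exact ((Nat.perm_primeFactorsList_mul (Int.natAbs_ne_zero.2 hx)
    (Int.natAbs_ne_zero.2 hy)).map Φ).sum_eq

theorem lab_prime {G : Type} [AddCommGroup G] (Φ : ℕ → G) (p : ℕ) (hp : p.Prime) :
    lab Φ (p : ℤ) = Φ p := by
  unfold lab
  rw [Int.natAbs_natCast, Nat.primeFactorsList_prime hp]
  simp

/-- few prime factors -/
theorem almostPrime_of (R : ℕ) (x δ E : ℝ) (hx : 1 < x) (hδ : 0 < δ) (hR : E / δ ≤ R) (z : ℤ)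
    (h1 : 1 < z) (hz : (z : ℝ) ≤ x ^ E) (hp : ∀ l : ℕ, l.Prime → (l : ℤ) ∣ z → x ^ δ < l) :
    AlmostPrime R (x ^ δ) z := by
  have hx0 : 0 < x := by linarith
  refine ⟨h1, ?_, hp⟩
  obtain ⟨w, rfl⟩ := Int.eq_ofNat_of_zero_le (by omega : 0 ≤ z)
  rw [Int.natAbs_natCast]
  have g1 := pow_length_le (x ^ δ) (by positivity) w.primeFactorsList (by
    intro p hp'
    exact (hp p (Nat.prime_of_mem_primeFactorsList hp')
      (Int.natCast_dvd_natCast.2 (Nat.dvd_of_mem_primeFactorsList hp'))).le)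
  rw [Nat.prod_primeFactorsList (by omega)] at g1
  have g2 : x ^ (δ * (w.primeFactorsList.length : ℝ)) ≤ x ^ E := by
    rw [Real.rpow_mul hx0.le, Real.rpow_natCast]
    exact g1.trans (by simpa using hz)
  have g3 := (Real.rpow_le_rpow_left_iff hx).1 g2
  have g4 : (w.primeFactorsList.length : ℝ) ≤ E / δ := by
    rw [le_div_iff₀ hδ]; linarith
  exact_mod_cast g4.trans hR

/-- **Almost prime `r`-tuples in all short intervals, with arbitrary labels, uniformly in the shifts.**
Let `r`, `k`, `N ≥ 1`, `1 - 1 / N < θ ≤ 1`, `ε > 0` and `E` be given. There are `R`, `q` and `δ > 0` such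
that for all large `x` the following holds for ALL the integers `a_1, ..., a_r` which do not occupy all
the classes modulo any prime (the local condition of the problem) and all `j` with
`-x / 2 ≤ a_i - a_j ≤ x ^ E` for all `i`.

Let `G` be a finite abelian group with at most `N` elements, or of exponent `2` with at most
`2 ^ (N - 1)` elements, and let `Φ p ∈ G` be arbitrary labels of the primes such that for no subgroup
`H ≠ G` the label modulo `H` of the products `≤ x ^ (k δ)` of primes `> x ^ δ` is a function of their class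
modulo `q`. Then for EVERY `g` in `G` at least `x ^ (1 - N (1 - θ) - ε)` integers `n` are such that
`n + a_j` lies in `(x, x + x ^ θ]`, all the `n + a_i` are products of at most `R` primes, all larger than
`x ^ δ`, and the label of `n + a_j` is `g`. -/
theorem result (r k N : ℕ) (hN : 1 ≤ N) (θ ε E : ℝ) (hθ : 1 - 1 / (N : ℝ) < θ) (hθ1 : θ ≤ 1)
    (hε : 0 < ε) :
    ∃ (R q : ℕ) (δ : ℝ), 0 < q ∧ 0 < δ ∧ ∃ x₀ : ℝ, ∀ x : ℝ, x₀ ≤ x →
      ∀ a : Fin r → ℤ, (∀ p : ℕ, p.Prime → ∃ n : ℤ, ∀ i, ¬ (p : ℤ) ∣ n + a i) → ∀ j : Fin r,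
      (∀ i, -x / 2 ≤ ((a i - a j : ℤ) : ℝ) ∧ ((a i - a j : ℤ) : ℝ) ≤ x ^ E) →
      ∀ (G : Type) [AddCommGroup G] [Fintype G],
        (Fintype.card G ≤ N ∨ (∀ z : G, z + z = 0) ∧ Fintype.card G ≤ 2 ^ (N - 1)) →
        ∀ Φ : ℕ → G, (∀ H : AddSubgroup G, H ≠ ⊤ → NotPeriodic Φ q k (x ^ δ) H) →
        ∀ g : G, x ^ (1 - N * (1 - θ) - ε) ≤ ({n : ℤ | n ∈ AlmostPrimeTuples a j θ δ R x ∧
          label Φ (n + a j).natAbs = g}.ncard : ℝ) := by
  classical
  obtain ⟨q, δ, hq, hδ, x₁, hx₁, hmain⟩ := real_versionX k 1 one_pos 0 r N hN θ ε hθ hθ1 hε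
  refine ⟨⌈(max E 1 + 2) / δ⌉₊, q, δ, hq, hδ, max x₁ 4, ?_⟩
  intro x hx
  have hxx₁ : x₁ ≤ x := (le_max_left _ _).trans hx
  have hx4 : (4 : ℝ) ≤ x := (le_max_right _ _).trans hx
  have hx1 : 1 ≤ x := hx₁.trans hxx₁
  have hx0 : 0 < x := by linarith
  have hx2 : 1 < x := by linarith
  have hxθ : x ^ θ ≤ x := by
    calc x ^ θ ≤ x ^ (1 : ℝ) := Real.rpow_le_rpow_of_exponent_le hx1 hθ1
      _ = x := Real.rpow_one x
  have hxE : x ^ E ≤ x ^ (max E 1) := Real.rpow_le_rpow_of_exponent_le hx1 (le_max_left _ _)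
  have hxE1 : x ≤ x ^ (max E 1) := by
    calc x = x ^ (1 : ℝ) := (Real.rpow_one x).symm
      _ ≤ _ := Real.rpow_le_rpow_of_exponent_le hx1 (le_max_right _ _)
  have hxE2 : 3 * x ^ (max E 1) ≤ x ^ (max E 1 + 2) := by
    rw [Real.rpow_add hx0, show (2 : ℝ) = ((2 : ℕ) : ℝ) by norm_num, Real.rpow_natCast, mul_comm]
    exact mul_le_mul_of_nonneg_left (by nlinarith) (by positivity)
  intro a hadm j haj G _ _ hG Φ hΦ g
  have key := hmain (fun _ => (univ : Finset (Fin r)).image (fun i => a j - a i))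
    (fun p _ => card_image_le.trans (by simp)) (by
    intro p hp
    obtain ⟨n, hn⟩ := hadm p hp
    refine ⟨n + a j, ?_, ?_⟩
    · intro hd
      exact hn j (by simpa using hd)
    · intro e he hd
      rw [mem_image] at he
      obtain ⟨i, -, rfl⟩ := he
      apply hn i
      have h1 : n + a i = (0 + ((1 : ℕ) : ℤ) * (n + a j)) - (a j - a i) := by push_cast; ring
      rw [h1]
      exact hd) x hxx₁ G hG (lab Φ) (addG_lab Φ) (by
    intro H hH
    obtain ⟨u, v, b1, b2, b3, b4, b5, b6, b7⟩ := hΦ H hH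
    have e1 : (x ^ δ) ^ k = x ^ (k * δ) := by
      rw [← Real.rpow_natCast (x ^ δ), ← Real.rpow_mul hx0.le]
      congr 1
      ring
    rw [e1] at b3 b4
    refine ⟨u, v, b1, b2, b3, b4, fun p hp hd => b5 p hp (hd.mul_right _),
      fun p hp hd => b5 p hp (hd.mul_left _), b6, ?_⟩
    have e2 : ∀ w : ℕ, lab Φ (w : ℤ) = label Φ w := fun w => by
      unfold lab label
      rw [Int.natAbs_natCast]
    rw [e2, e2]
    exact b7) g
  refine key.trans (Nat.cast_le.2 ?_)
  refine Set.ncard_le_ncard_of_injOn (fun z => z - a j) ?_ ?_ ?_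
  · rintro z ⟨h1, h2, -, h4, h5, h6⟩
    simp only [Set.mem_ofPred_eq]
    have e0 : z - a j + a j = z := by ring
    have hceil := Nat.le_ceil ((max E 1 + 2) / δ)
    refine ⟨⟨by rw [e0]; exact h1, by rw [e0]; exact h2, fun i => ?_⟩, by rw [e0]; exact h6⟩
    have e1 : z - a j + a i = z - (a j - a i) := by ring
    have e2 : ((z - a j + a i : ℤ) : ℝ) = (z : ℝ) + ((a i - a j : ℤ) : ℝ) := by push_cast; ring
    obtain ⟨k1, k2⟩ := haj i
    refine almostPrime_of _ x δ (max E 1 + 2) hx2 hδ hceil _ ?_ ?_ ?_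
    · have : (1 : ℝ) < ((z - a j + a i : ℤ) : ℝ) := by
        rw [e2]; linarith
      exact_mod_cast this
    · rw [e2]
      linarith
    · intro l hl hd
      by_contra hcon
      push Not at hcon
      exact h5 l hl hcon (a j - a i) (mem_image_of_mem _ (mem_univ i)) (by rw [← e1]; exact hd)
  · intro z _ z' _ h
    simpa using h
  · apply (Set.finite_Icc (⌊x⌋ - a j) (⌊x + x ^ θ⌋ - a j)).subset
    rintro n ⟨⟨k1, k2, -⟩, -⟩
    have k3 : ⌊x⌋ ≤ n + a j := Int.floor_le_iff.2 (by linarith)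
    have k4 : n + a j ≤ ⌊x + x ^ θ⌋ := Int.le_floor.2 k2
    exact ⟨by linarith, by linarith⟩

/-- **The case of labels which generate `G`.** The condition of `result` holds for `k = 2` if the labels of
the primes `p ≡ 1` modulo `q` in `(x ^ δ, x ^ (2 δ)]` generate `G`; and there are such primes. -/
theorem result_primes (r N : ℕ) (hN : 1 ≤ N) (θ ε E : ℝ) (hθ : 1 - 1 / (N : ℝ) < θ) (hθ1 : θ ≤ 1)
    (hε : 0 < ε) :
    ∃ (R q : ℕ) (δ : ℝ), 0 < q ∧ 0 < δ ∧ ∃ x₀ : ℝ, ∀ x : ℝ, x₀ ≤ x →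
      (∃ p : ℕ, p.Prime ∧ x ^ δ < p ∧ (p : ℝ) ≤ x ^ (2 * δ) ∧ p ≡ 1 [MOD q]) ∧
      ∀ a : Fin r → ℤ, (∀ p : ℕ, p.Prime → ∃ n : ℤ, ∀ i, ¬ (p : ℤ) ∣ n + a i) → ∀ j : Fin r,
      (∀ i, -x / 2 ≤ ((a i - a j : ℤ) : ℝ) ∧ ((a i - a j : ℤ) : ℝ) ≤ x ^ E) →
      ∀ (G : Type) [AddCommGroup G] [Fintype G],
        (Fintype.card G ≤ N ∨ (∀ z : G, z + z = 0) ∧ Fintype.card G ≤ 2 ^ (N - 1)) →
        ∀ Φ : ℕ → G, AddSubgroup.closure {g : G | ∃ p : ℕ, p.Prime ∧ x ^ δ < p ∧
          (p : ℝ) ≤ x ^ (2 * δ) ∧ p ≡ 1 [MOD q] ∧ Φ p = g} = ⊤ →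
        ∀ g : G, x ^ (1 - N * (1 - θ) - ε) ≤ ({n : ℤ | n ∈ AlmostPrimeTuples a j θ δ R x ∧
          label Φ (n + a j).natAbs = g}.ncard : ℝ) := by
  obtain ⟨R, q, δ, hq, hδ, x₁, h⟩ := result r 2 N hN θ ε E hθ hθ1 hε
  obtain ⟨Y₀, hY₀⟩ := Pool.Agent.H661R3.OP.t_PAP q hq
  have l1 : ∀ᶠ x : ℝ in Filter.atTop, ((Y₀ : ℝ) + 2) ≤ x ^ δ :=
    (tendsto_rpow_atTop hδ).eventually_ge_atTop _
  obtain ⟨x₂, hx₂⟩ := Filter.eventually_atTop.mp l1
  refine ⟨R, q, δ, hq, hδ, max (max x₁ x₂) 1, ?_⟩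
  intro x hx
  have hxx₁ : x₁ ≤ x := ((le_max_left _ _).trans (le_max_left _ _)).trans hx
  have hxx₂ : x₂ ≤ x := ((le_max_right _ _).trans (le_max_left _ _)).trans hx
  have hx1 : 1 ≤ x := (le_max_right _ _).trans hx
  have hx0 : 0 < x := by linarith
  have e1 : (x ^ δ) ^ 2 = x ^ (2 * δ) := by
    rw [← Real.rpow_natCast (x ^ δ), ← Real.rpow_mul hx0.le]
    congr 1
    push_cast
    ring
  constructor
  · obtain ⟨p, hp, hp1, hp2, hp3⟩ := hY₀ ⌊x ^ δ⌋₊ (by
      apply Nat.le_floor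
      have := hx₂ x hxx₂
      linarith)
    refine ⟨p, hp, ?_, ?_, ?_⟩
    · have : ⌊x ^ δ⌋₊ + 1 ≤ p := hp1
      calc x ^ δ < (⌊x ^ δ⌋₊ : ℝ) + 1 := Nat.lt_floor_add_one _
        _ ≤ p := by exact_mod_cast this
    · calc (p : ℝ) ≤ ((⌊x ^ δ⌋₊ ^ 2 : ℕ) : ℝ) := by exact_mod_cast hp2
        _ = (⌊x ^ δ⌋₊ : ℝ) ^ 2 := by push_cast; rfl
        _ ≤ (x ^ δ) ^ 2 := pow_le_pow_left₀ (by positivity) (Nat.floor_le (by positivity)) 2
        _ = x ^ (2 * δ) := e1
    · apply Nat.ModEq.symm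
      rw [Nat.modEq_iff_dvd]
      simpa using hp3
  · intro a ha j haj G _ _ hG Φ hΦ g
    refine h x hxx₁ a ha j haj G hG Φ ?_ g
    intro H hH
    by_contra hcon
    apply hH
    rw [← hΦ]
    symm
    apply le_antisymm
    · rw [AddSubgroup.closure_le]
      rintro g' ⟨p, hp, h1, h2, h3, rfl⟩
      by_contra h4
      apply hcon
      refine ⟨p, 1, hp.pos, one_pos, by rw [e1]; exact h2, ?_, ?_, h3, ?_⟩
      · have : (1 : ℝ) ≤ x ^ δ := Real.one_le_rpow hx1 hδ.le
        push_cast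
        exact one_le_pow₀ this
      · intro l hl hd
        rw [mul_one] at hd
        rw [(Nat.prime_dvd_prime_iff_eq hl hp).1 hd]
        exact h1
      · unfold label
        rw [Nat.primeFactorsList_prime hp]
        simpa using h4
    · rw [hΦ]; exact le_top

/-- **The number of prime factors of a member, in any class modulo `M`.** The special case of
`result_primes` with `G = ZMod M` and `Φ = 1`. -/
theorem result_Omega (r M : ℕ) (hM : 1 ≤ M) (θ ε E : ℝ) (hθ : 1 - 1 / (M : ℝ) < θ) (hθ1 : θ ≤ 1)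
    (hε : 0 < ε) :
    ∃ (R : ℕ) (δ : ℝ), 0 < δ ∧ ∃ x₀ : ℝ, ∀ x : ℝ, x₀ ≤ x →
      ∀ a : Fin r → ℤ, (∀ p : ℕ, p.Prime → ∃ n : ℤ, ∀ i, ¬ (p : ℤ) ∣ n + a i) → ∀ j : Fin r,
      (∀ i, -x / 2 ≤ ((a i - a j : ℤ) : ℝ) ∧ ((a i - a j : ℤ) : ℝ) ≤ x ^ E) → ∀ t : ℕ,
      x ^ (1 - M * (1 - θ) - ε) ≤ ({n : ℤ | n ∈ AlmostPrimeTuples a j θ δ R x ∧
          (n + a j).natAbs.primeFactorsList.length ≡ t [MOD M]}.ncard : ℝ) := by
  obtain ⟨R, q, δ, -, hδ, x₀, h⟩ := result_primes r M hM θ ε E hθ hθ1 hε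
  refine ⟨R, δ, hδ, x₀, fun x hx a ha j haj t => ?_⟩
  obtain ⟨⟨p, hp, hp1, hp2, hp3⟩, h2⟩ := h x hx
  have : NeZero M := ⟨by omega⟩
  have h1 := h2 a ha j haj (ZMod M) (Or.inl (by rw [ZMod.card])) (fun _ => 1) (by
    rw [eq_top_iff]
    intro z _
    have hz : z = (z.val : ℕ) • (1 : ZMod M) := by
      rw [nsmul_eq_mul, mul_one, ZMod.natCast_zmod_val]
    have hmem : (1 : ZMod M) ∈ {g : ZMod M | ∃ p : ℕ, p.Prime ∧ x ^ δ < p ∧
        (p : ℝ) ≤ x ^ (2 * δ) ∧ p ≡ 1 [MOD q] ∧ (fun _ : ℕ => (1 : ZMod M)) p = g} :=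
      ⟨p, hp, hp1, hp2, hp3, rfl⟩
    rw [hz]
    exact AddSubgroup.nsmul_mem _ (AddSubgroup.subset_closure hmem) _)
    (t : ZMod M)
  refine h1.trans (le_of_eq ?_)
  congr 2
  ext n
  simp only [Set.mem_ofPred_eq]
  refine and_congr_right fun _ => ?_
  unfold label
  rw [List.map_const', List.sum_replicate, nsmul_eq_mul, mul_one]
  exact ZMod.natCast_eq_natCast_iff _ _ _

end Pool.Agent.Results.MP_e87c7d_nt.LabelledTuples
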