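import Pool.Agent.H15.JD.Pb

/-! At typical `k`-tuples of dilations by primes of polylogarithmic size, every pattern of windows of logarithmic length
with and without primes occurs at a positive proportion of the points of an arbitrary dense set. -/

set_option autoImplicit false

namespace Pool.Agent.Results.MP_e87c7d_nt.PatternsAtDilates
open Finset Pool.Agent.H15.JD

/-- For all `B`, `k` and all `σ, lam, κ > 0` there are `c > 0`, `C` and `N₀` with the following property. Let `N ≥ N₀`,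
`(log N)^C ≤ P_j ≤ N^B`, let `A_j` be any set of at least `P_j / (log N)^B` primes in `(P_j / 2, P_j]` (`j ≤ k`), let `η ≤ 1`
and `P_j η ≥ lam log N`, and let `S` be any `η`-separated set of at least `σ N / η` reals in `[N, 2 N]`. Then all but a
proportion `1 / (log N)^B` of the tuples `(a_1, ..., a_k)` in `A_1 × ... × A_k` have the following property for every
`J ⊆ {1, ..., k}` with `P_j η ≤ (1 - κ) log N` for all `j ∉ J`: at least `c N / η` elements `x` of `S` are such that the window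
`(a_j x, a_j (x + η)]` contains a prime if and only if `j ∈ J`. -/
theorem result (B k : ℕ) (σ lam κ : ℝ) (hσ : 0 < σ) (hlam : 0 < lam) (hκ : 0 < κ) : ∃ c : ℝ, 0 < c ∧ ∃ (C : ℕ) (N₀ : ℝ),
    ∀ (N η : ℝ) (P : Fin k → ℝ) (A : Fin k → Finset ℕ) (S : Finset ℝ), N₀ ≤ N →
    (∀ j, Real.log N ^ C ≤ P j) → (∀ j, P j ≤ N ^ B) →
    (∀ j, ∀ a ∈ A j, a.Prime ∧ P j / 2 < a ∧ (a : ℝ) ≤ P j) → (∀ j, P j / Real.log N ^ B ≤ (A j).card) →
    (∀ j, lam * Real.log N ≤ P j * η) → 0 < η → η ≤ 1 →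
    (∀ x ∈ S, N ≤ x ∧ x ≤ 2 * N) → (∀ x ∈ S, ∀ x' ∈ S, x ≠ x' → η ≤ |x - x'|) → σ * (N / η) ≤ S.card →
    ∃ E : Finset (Fin k → ℕ), E ⊆ Fintype.piFinset A ∧ (E.card : ℝ) ≤ (∏ j, ((A j).card : ℝ)) / Real.log N ^ B ∧
      ∀ a ∈ Fintype.piFinset A, a ∉ E → ∀ J : Finset (Fin k), (∀ j, j ∉ J → P j * η ≤ (1 - κ) * Real.log N) →
        ∃ F ⊆ S, c * (N / η) ≤ F.card ∧
          ∀ x ∈ F, ∀ j, ((∃ p : ℕ, p.Prime ∧ (a j : ℝ) * x < p ∧ (p : ℝ) ≤ a j * (x + η)) ↔ j ∈ J) :=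
  patterns' B k σ lam κ hσ hlam hκ

end Pool.Agent.Results.MP_e87c7d_nt.PatternsAtDilates
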